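import Pool.Agent.Helper47.FLG.Alg2

/-! MP_c98eff_gt, project FLG: U2 (unitary invariance of `qf` on frames). -/

namespace Pool.Agent.Helper47.FLG

open Finset Pool.Agent.Helper47.RFn

namespace U2h

/-- the complex multilinear form -/
noncomputable def Sc {n : ℕ} (S : T4 n) (z w u v : Fin n → ℂ) : ℂ :=
  ∑ a, ∑ b, ∑ c, ∑ d, (S a b c d : ℂ) * z a * w b * u c * v d

theorem Sc_lin {n : ℕ} (S : T4 n) (z w u v : Fin n → ℂ) (α β γ δ : ℂ) :
    Sc S (fun i => α * z i + β * w i) (fun i => γ * z i + δ * w i) u v =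
      α * γ * Sc S z z u v + α * δ * Sc S z w u v + β * γ * Sc S w z u v +
        β * δ * Sc S w w u v := by
  unfold Sc
  simp only [Finset.mul_sum, ← Finset.sum_add_distrib]
  refine Finset.sum_congr rfl fun a _ => Finset.sum_congr rfl fun b _ =>
    Finset.sum_congr rfl fun c _ => Finset.sum_congr rfl fun d _ => ?_
  ring

theorem Sc_swap {n : ℕ} {S : T4 n} (hS : IsCurv S) (z w u v : Fin n → ℂ) :
    Sc S w z u v = - Sc S z w u v := by
  unfold Sc
  rw [Finset.sum_comm, ← Finset.sum_neg_distrib]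
  refine Finset.sum_congr rfl fun a _ => ?_
  rw [← Finset.sum_neg_distrib]
  refine Finset.sum_congr rfl fun b _ => ?_
  rw [← Finset.sum_neg_distrib]
  refine Finset.sum_congr rfl fun c _ => ?_
  rw [← Finset.sum_neg_distrib]
  refine Finset.sum_congr rfl fun d _ => ?_
  rw [hS.a12 b a c d]
  push_cast
  ring

theorem Sc_pair {n : ℕ} {S : T4 n} (hS : IsCurv S) (z w u v : Fin n → ℂ) :
    Sc S z w u v = Sc S u v z w := by
  unfold Sc
  have h1 : ∀ a b c d, (S a b c d : ℂ) * z a * w b * u c * v d =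
      (S c d a b : ℂ) * u c * v d * z a * w b := by
    intro a b c d
    rw [hS.pair a b c d]
    ring
  simp only [h1]
  have h2 : ∀ a, ∑ b, ∑ c, ∑ d, (S c d a b : ℂ) * u c * v d * z a * w b =
      ∑ c, ∑ d, ∑ b, (S c d a b : ℂ) * u c * v d * z a * w b := by
    intro a
    rw [Finset.sum_comm]
    exact Finset.sum_congr rfl fun c _ => Finset.sum_comm
  rw [Finset.sum_congr rfl fun a _ => h2 a, Finset.sum_comm]
  exact Finset.sum_congr rfl fun c _ => Finset.sum_comm

theorem Sc_self {n : ℕ} {S : T4 n} (hS : IsCurv S) (z u v : Fin n → ℂ) : Sc S z z u v = 0 := by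
  have h := Sc_swap hS z z u v
  have h2 : (2 : ℂ) * Sc S z z u v = 0 := by
    linear_combination h
  simpa using h2

theorem Sc_det {n : ℕ} {S : T4 n} (hS : IsCurv S) (z w u v : Fin n → ℂ) (α β γ δ : ℂ) :
    Sc S (fun i => α * z i + β * w i) (fun i => γ * z i + δ * w i) u v =
      (α * δ - β * γ) * Sc S z w u v := by
  rw [Sc_lin, Sc_self hS z, Sc_self hS w, Sc_swap hS z w]
  ring

theorem qf_eq {n : ℕ} (S : T4 n) (z w : Fin n → ℂ) :
    qf S z w = (Sc S z w (fun i => star (z i)) (fun i => star (w i))).re := rfl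

theorem qf_det {n : ℕ} {S : T4 n} (hS : IsCurv S) (z w : Fin n → ℂ) (α β γ δ : ℂ) :
    qf S (fun i => α * z i + β * w i) (fun i => γ * z i + δ * w i) =
      Complex.normSq (α * δ - β * γ) * qf S z w := by
  rw [qf_eq, qf_eq, Sc_det hS, Sc_pair hS]
  have h1 : (fun i => star (α * z i + β * w i)) =
      fun i => star α * star (z i) + star β * star (w i) := by
    funext i
    rw [star_add, star_mul', star_mul']
  have h2 : (fun i => star (γ * z i + δ * w i)) =
      fun i => star γ * star (z i) + star δ * star (w i) := by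
    funext i
    rw [star_add, star_mul', star_mul']
  rw [h1, h2, Sc_det hS (fun i => star (z i)) (fun i => star (w i)) z w, Sc_pair hS _ _ z w]
  have h3 : star α * star δ - star β * star γ = star (α * δ - β * γ) := by
    rw [star_sub, star_mul', star_mul']
  rw [h3, ← mul_assoc]
  have h4 : (α * δ - β * γ) * star (α * δ - β * γ) =
      (Complex.normSq (α * δ - β * γ) : ℂ) := Complex.mul_conj _
  rw [h4, Complex.re_ofReal_mul]

theorem dot_lc {n : ℕ} {e : Fin 4 → Fin n → ℝ} (he : ON e) (a b c d a' b' c' d' : ℝ) :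
    dot (lc e a b c d) (lc e a' b' c' d') = a * a' + b * b' + c * c' + d * d' := by
  have h1 : dot (lc e a b c d) (lc e a' b' c' d') =
      a * a' * dot (e 0) (e 0) + a * b' * dot (e 0) (e 1) + a * c' * dot (e 0) (e 2) +
      a * d' * dot (e 0) (e 3) + b * a' * dot (e 1) (e 0) + b * b' * dot (e 1) (e 1) +
      b * c' * dot (e 1) (e 2) + b * d' * dot (e 1) (e 3) + c * a' * dot (e 2) (e 0) +
      c * b' * dot (e 2) (e 1) + c * c' * dot (e 2) (e 2) + c * d' * dot (e 2) (e 3) +
      d * a' * dot (e 3) (e 0) + d * b' * dot (e 3) (e 1) + d * c' * dot (e 3) (e 2) +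
      d * d' * dot (e 3) (e 3) := by
    unfold dot lc
    simp only [Finset.mul_sum, ← Finset.sum_add_distrib]
    exact Finset.sum_congr rfl fun i _ => by ring
  rw [h1, he 0 0, he 0 1, he 0 2, he 0 3, he 1 0, he 1 1, he 1 2, he 1 3, he 2 0, he 2 1, he 2 2,
    he 2 3, he 3 0, he 3 1, he 3 2, he 3 3]
  norm_num [Fin.ext_iff]

end U2h

open U2h

theorem g_U2 : G_U2 := by
  intro n e a b c d s t he habcd hst
  constructor
  · have hs2 : (s * c + t * d) ^ 2 + (s * d - t * c) ^ 2 + (s * a + t * b) ^ 2 +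
        (t * a - s * b) ^ 2 = 1 := by
      have : (s * c + t * d) ^ 2 + (s * d - t * c) ^ 2 + (s * a + t * b) ^ 2 +
        (t * a - s * b) ^ 2 = (s ^ 2 + t ^ 2) * (a ^ 2 + b ^ 2 + c ^ 2 + d ^ 2) := by ring
      rw [this, habcd, hst]
      norm_num
    intro i j
    fin_cases i <;> fin_cases j <;>
      simp only [ufr, Fin.zero_eta, Fin.mk_one, Fin.reduceFinMk, Matrix.cons_val_zero,
        Matrix.cons_val_one, Matrix.cons_val, dot_lc he] <;>
      norm_num [Fin.ext_iff] <;> nlinarith
  · intro S hS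
    have h0 : cv (ufr e a b c d s t 0) (ufr e a b c d s t 1) = fun i =>
        ((a : ℂ) - Complex.I * b) * cv (e 0) (e 1) i + ((c : ℂ) - Complex.I * d) * cv (e 2) (e 3) i := by
      funext i
      simp only [cv, ufr, lc, Matrix.cons_val_zero, Matrix.cons_val_one]
      push_cast
      linear_combination ((b : ℂ) * e 1 i + d * e 3 i) * Complex.I_sq
    have h1 : cv (ufr e a b c d s t 2) (ufr e a b c d s t 3) = fun i =>
        (-(((s : ℂ) - Complex.I * t) * (c + Complex.I * d))) * cv (e 0) (e 1) i +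
          (((s : ℂ) - Complex.I * t) * (a + Complex.I * b)) * cv (e 2) (e 3) i := by
      funext i
      simp only [cv, ufr, lc, Matrix.cons_val]
      push_cast
      linear_combination (-(t : ℂ) * d * e 0 i + ((s : ℂ) * d - t * c - Complex.I * t * d) * e 1 i +
        (t : ℂ) * b * e 2 i + ((t : ℂ) * a - s * b + Complex.I * t * b) * e 3 i) * Complex.I_sq
    rw [h0, h1, qf_det hS]
    have h2 : ((a : ℂ) - Complex.I * b) * (((s : ℂ) - Complex.I * t) * (a + Complex.I * b)) -
        ((c : ℂ) - Complex.I * d) * (-(((s : ℂ) - Complex.I * t) * (c + Complex.I * d))) =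
        ((s : ℂ) - Complex.I * t) := by
      have h3 : ((a : ℂ) ^ 2 + b ^ 2 + c ^ 2 + d ^ 2) = 1 := by exact_mod_cast habcd
      linear_combination ((s : ℂ) - Complex.I * t) * h3 -
        ((s : ℂ) - Complex.I * t) * (b ^ 2 + d ^ 2) * Complex.I_sq
    rw [h2]
    have h4 : Complex.normSq ((s : ℂ) - Complex.I * t) = 1 := by
      rw [Complex.normSq_apply]
      simp
      nlinarith
    rw [h4, one_mul]

end Pool.Agent.Helper47.FLG
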