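import Pool.Agent.Helper47.FLG.Fun

/-!
# Project FLG, packet GDT: time derivative of the Pfaffian
-/

namespace Pool.Agent.Helper47.FLG

open Finset Pool.Agent.Helper47.RFn Pool.Agent.Helper73.RFn

namespace GDT

lemma one_mem {n : ℕ} : (one : Ix n → Ix n → ℝ) ∈ OO n := by
  intro a b
  unfold one
  simp

lemma ev_alt {m : ℕ} {B : Type} [CommRing B] [Algebra ℝ B] (φ : B →ₐ[ℝ] ℝ)
    (X : (Fin (2 * m + 1) → Fin (2 * m + 1)) → (Fin (2 * m + 1) → Fin (2 * m + 1)) → B) :
    φ (alt X) = alt (fun s p => φ (X s p)) := by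
  unfold alt
  simp only [map_sum, map_zsmul]

lemma ev_pf {m : ℕ} {T : ℝ} (F : FB (2 * m) T) (z : F.Z) (t : TI T) :
    F.ev z t (pf F) = pft (F.rv z t) (F.nv z t) := by
  unfold pf pft
  rw [ev_alt]
  congr 1
  funext s p
  simp only [map_mul, map_prod, FB.rv, FB.nv]

lemma Cc_anti {n : ℕ} (A θ : MF n) (a b c : Fin (n + 1)) (x : EE n) :
    Cc A θ a b c x = - Cc A θ b a c x := by
  unfold Cc
  rw [neg_add, ← Finset.sum_neg_distrib]
  congr 1
  · exact Finset.sum_congr rfl (fun j _ => by ring)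
  · ring

lemma Gamc_anti {n : ℕ} (A θ : MF n) (a b c : Fin (n + 1)) (x : EE n) :
    Gamc A θ a b c x = - Gamc A θ a c b x := by
  unfold Gamc
  rw [Cc_anti A θ a b c x, Cc_anti A θ b c a x, Cc_anti A θ c a b x]
  ring

end GDT

open GDT

theorem p_GDT (hPF3 : G_PF3) (hPF4 : G_PF4) (hMOD : Goal_MOD) (hFLB : Goal_FLB)
    (hATO : Goal_ATO) (hRIC : Goal_RIC) (hJSR : JsrStmt) (hFJS : FjsStmt) (hFHM : FhmStmt) :
    G_GDT := by
  intro m hm T A θ hT hfl t ht0 htT
  obtain ⟨M, hM⟩ := hMOD (2 * m) T hT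
  have hsub : Set.Ioo 0 T ⊆ Set.Ico 0 T := Set.Ioo_subset_Ico_self
  have hJ := hFJS (2 * m) T (Set.Ico 0 T) A θ hT hsub hfl
  have hMA : MJ T A := fun i j => ⟨(hJ.1 i j).cd, (hJ.1 i j).hom⟩
  have hMθ : MJ T θ := fun i j => ⟨(hJ.2.1 i j).cd, (hJ.2.1 i j).hom⟩
  obtain ⟨-, hFull, hRF, -, -, hnuev, -⟩ :=
    hFLB (2 * m) T hT M hM (Set.Ico 0 T) A θ hsub hfl hMA hMθ
  obtain ⟨hat, -, -, -, -, hflow⟩ := hATO (2 * m) T hT M hM
  obtain ⟨hatR, hatRic, hated, -⟩ := hflow (Set.Ico 0 T) A θ hsub hfl hMA hMθ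
  -- evaluation at the frame one
  have hkey : ∀ x : EE (2 * m), x ≠ 0 → ∃ z : M.Z, M.fr z = one ∧
      M.pt z = ‖x‖⁻¹ • x ∧ ∀ (f : M.B) (r : TI T), M.at1 f r x = M.ev z r f := by
    intro x hx
    have hnx : 0 < ‖x‖ := norm_pos_iff.mpr hx
    have hn1 : ‖‖x‖⁻¹ • x‖ = 1 := by
      rw [norm_smul, norm_inv, norm_norm, inv_mul_cancel₀ hnx.ne']
    obtain ⟨z, hz1, hz2⟩ := hM.surj (‖x‖⁻¹ • x) one hn1 one_mem
    refine ⟨z, hz2, hz1, fun f r => ?_⟩
    have h1 := (hat f).2.1 z r hz2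
    rw [h1, hz1]
    exact ((hat f).1.hom r r.2.1 r.2.2 (‖x‖⁻¹) x (inv_pos.mpr hnx)).symm
  have hpf : ∀ x : EE (2 * m), x ≠ 0 → ∀ r : TI T,
      M.at1 (pf (M.flB A θ)) r x = pff (A r) (θ r) x := by
    intro x hx r
    obtain ⟨z, hz1, hz2, hz3⟩ := hkey x hx
    have h1 : M.at1 (pf (M.flB A θ)) r x = (M.flB A θ).ev z r (pf (M.flB A θ)) := hz3 _ r
    rw [h1, ev_pf]
    have hR : (M.flB A θ).rv z r = RT (A r) (θ r) x := by
      funext a b c d
      have h2 : M.at1 ((M.flB A θ).R a b c d) r x = (M.flB A θ).ev z r ((M.flB A θ).R a b c d) :=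
        hz3 _ r
      show (M.flB A θ).ev z r ((M.flB A θ).R a b c d) = Rf (A r) (θ r) a b c d x
      rw [← h2]
      exact hatR a b c d r x r.2.1 r.2.2 hx
    have hν : (M.flB A θ).nv z r = fun a => nfc (A r) a x := by
      funext a
      show (M.flB A θ).ev z r ((M.flB A θ).nu a) = nfc (A r) a x
      rw [hnuev z r a, hz1]
      have hr : (r : ℝ) ∈ Set.Ico 0 T := ⟨r.2.1.le, r.2.2⟩
      have hfrm : Frm (A r) (θ r) := ((hFHM (2 * m)).2 (Set.Ico 0 T) A θ hfl).1 r hr
      obtain ⟨-, -, -, -, -, -, -, -, hSnf, -⟩ := (hFHM (2 * m)).1 (A r) (θ r) hfrm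
      have hsum : ∑ b, (one : Ix (2 * m) → Ix (2 * m) → ℝ) a b * nfc (A r) b (M.pt z) =
          nfc (A r) a (M.pt z) := by
        unfold one
        simp
      rw [hsum, hz2]
      exact (hSnf a).hom (‖x‖⁻¹) x (inv_pos.mpr (norm_pos_iff.mpr hx))
    rw [hR, hν]
    rfl
  refine ⟨fun a => M.at1 (pw (M.flB A θ) a) t, ?_, ?_⟩
  · intro a
    have h1 := (hat (pw (M.flB A θ) a)).1
    obtain ⟨-, -, -, -, -, -, -, -, hSm, -⟩ := hJSR (2 * m) T
    exact hSm (M.at1 (pw (M.flB A θ) a)) ⟨h1.cd, h1.hom⟩ t ht0 htT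
  · intro x hx
    obtain ⟨z, hz1, hz2, hz3⟩ := hkey x hx
    set tt : TI T := ⟨t, ht0, htT⟩ with htt
    have hder := (hat (pf (M.flB A θ))).2.2.2.1 t x ht0 htT hx
    have hev : (fun r => pff (A r) (θ r) x) =ᶠ[nhds t] (fun r => M.at1 (pf (M.flB A θ)) r x) := by
      have hn : Set.Ioo (0 : ℝ) T ∈ nhds t := Ioo_mem_nhds ht0 htT
      filter_upwards [hn] with r hr
      exact (hpf x hx ⟨r, hr⟩).symm
    have hder2 := hder.congr_of_eventuallyEq hev
    refine hder2.congr_deriv ?_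
    -- the value
    have hD : M.at1 (M.Dt (pf (M.flB A θ))) t x =
        (M.flB A θ).ev z tt ((M.flB A θ).D (pf (M.flB A θ))) := hz3 (M.Dt (pf (M.flB A θ))) tt
    rw [hD, hPF3 m T (M.flB A θ) hFull]
    rw [map_add, map_mul, map_sum, map_sum]
    have hpf1 : (M.flB A θ).ev z tt (pf (M.flB A θ)) = pff (A t) (θ t) x := by
      rw [← hpf x hx tt]
      exact (hz3 (pf (M.flB A θ)) tt).symm
    have hS : ∀ a, (M.flB A θ).ev z tt ((M.flB A θ).S a a) = Rcf (A t) (θ t) a a x := by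
      intro a
      rw [hRF a a, ← hatRic a a t x ht0 htT hx]
      exact (hz3 ((M.flB A θ).Ric a a) tt).symm
    rw [hpf1, Finset.sum_congr rfl (fun a _ => hS a)]
    have hinv : ∀ a b, ∑ i, A t x a i * θ t x i b = if a = b then 1 else 0 := by
      intro a b
      have h1 := hfl.inv t ⟨ht0.le, htT⟩ x
      have h2 := congrFun (congrFun h1 a) b
      rw [Matrix.mul_apply, Matrix.one_apply] at h2
      exact h2
    have hV : ∀ k l y, (M.flB A θ).V k l (pw (M.flB A θ) y) =
        (M.flB A θ).dl l y * pw (M.flB A θ) k - (M.flB A θ).dl k y * pw (M.flB A θ) l := by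
      refine (hPF4 m T (M.flB A θ) hFull ?_).2
      intro k l a b
      obtain ⟨-, -, -, -, hRV, -⟩ := hRIC (2 * m) T (M.flB A θ) hFull
      rw [hRF a b, hRF k b, hRF l b, hRF a k, hRF a l]
      exact hRV k l a b
    have hw : ∀ a, (M.flB A θ).ev z tt (pw (M.flB A θ) a) = M.at1 (pw (M.flB A θ) a) t x :=
      fun a => (hz3 (pw (M.flB A θ) a) tt).symm
    have hdl : ∀ a b, (M.flB A θ).ev z tt ((M.flB A θ).dl a b) = if a = b then (1 : ℝ) else 0 := by
      intro a b
      unfold FB.dl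
      split_ifs
      · exact map_one _
      · exact map_zero _
    have hVev : ∀ c d a, M.at1 (M.V c d (pw (M.flB A θ) a)) t x =
        (if d = a then (1 : ℝ) else 0) * M.at1 (pw (M.flB A θ) c) t x -
          (if c = a then (1 : ℝ) else 0) * M.at1 (pw (M.flB A θ) d) t x := by
      intro c d a
      have h1 : M.at1 (M.V c d (pw (M.flB A θ) a)) t x =
          (M.flB A θ).ev z tt ((M.flB A θ).V c d (pw (M.flB A θ) a)) :=
        hz3 (M.V c d (pw (M.flB A θ) a)) tt
      rw [h1, hV, map_sub, map_mul, map_mul, hdl, hdl, hw, hw]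
    have hHev : ∀ a, (M.flB A θ).ev z tt ((M.flB A θ).H a (pw (M.flB A θ) a)) =
        M.at1 ((M.flB A θ).H a (pw (M.flB A θ) a)) t x :=
      fun a => (hz3 ((M.flB A θ).H a (pw (M.flB A θ) a)) tt).symm
    have hF : ∀ a, Fdc (A t) a (M.at1 (pw (M.flB A θ) a) t) x =
        (M.flB A θ).ev z tt ((M.flB A θ).H a (pw (M.flB A θ) a)) -
          1 / 2 * ∑ c, ∑ d, Gamc (A t) (θ t) a c d x *
            ((if d = a then (1 : ℝ) else 0) * M.at1 (pw (M.flB A θ) c) t x -
              (if c = a then (1 : ℝ) else 0) * M.at1 (pw (M.flB A θ) d) t x) := by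
      intro a
      unfold Fdc
      have h1 : ∀ i, ed i (M.at1 (pw (M.flB A θ) a) t) x = ∑ b, θ t x i b *
          (M.at1 ((M.flB A θ).H b (pw (M.flB A θ) a)) t x - 1 / 2 * ∑ c, ∑ d,
            Gamc (A t) (θ t) b c d x * ((if d = a then (1 : ℝ) else 0) *
              M.at1 (pw (M.flB A θ) c) t x - (if c = a then (1 : ℝ) else 0) *
              M.at1 (pw (M.flB A θ) d) t x)) := by
        intro i
        rw [hated (pw (M.flB A θ) a) i t x ht0 htT hx]
        refine Finset.sum_congr rfl (fun b _ => ?_)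
        congr 3
        refine Finset.sum_congr rfl (fun c _ => Finset.sum_congr rfl (fun d _ => ?_))
        rw [hVev]
      rw [Finset.sum_congr rfl (fun i _ => by rw [h1 i])]
      rw [hHev a]
      generalize hX : (fun b => M.at1 ((M.flB A θ).H b (pw (M.flB A θ) a)) t x - 1 / 2 *
        ∑ c, ∑ d, Gamc (A t) (θ t) b c d x * ((if d = a then (1 : ℝ) else 0) *
          M.at1 (pw (M.flB A θ) c) t x - (if c = a then (1 : ℝ) else 0) *
          M.at1 (pw (M.flB A θ) d) t x)) = X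
      have hXb : ∀ b, M.at1 ((M.flB A θ).H b (pw (M.flB A θ) a)) t x - 1 / 2 *
        ∑ c, ∑ d, Gamc (A t) (θ t) b c d x * ((if d = a then (1 : ℝ) else 0) *
          M.at1 (pw (M.flB A θ) c) t x - (if c = a then (1 : ℝ) else 0) *
          M.at1 (pw (M.flB A θ) d) t x) = X b := fun b => congrFun hX b
      rw [hXb a]
      simp only [hXb]
      calc ∑ i, A t x a i * ∑ b, θ t x i b * X b
          = ∑ b, (∑ i, A t x a i * θ t x i b) * X b := by
            simp only [Finset.mul_sum, Finset.sum_mul]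
            rw [Finset.sum_comm]
            exact Finset.sum_congr rfl (fun b _ => Finset.sum_congr rfl (fun i _ => by ring))
        _ = X a := by
            simp only [hinv]
            simp
    have hG : ∀ a, ∑ c, ∑ d, Gamc (A t) (θ t) a c d x *
            ((if d = a then (1 : ℝ) else 0) * M.at1 (pw (M.flB A θ) c) t x -
              (if c = a then (1 : ℝ) else 0) * M.at1 (pw (M.flB A θ) d) t x) =
          -(2 * ∑ c, Gamc (A t) (θ t) a a c x * M.at1 (pw (M.flB A θ) c) t x) := by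
      intro a
      have e1 : ∀ c, ∑ d, Gamc (A t) (θ t) a c d x *
            ((if d = a then (1 : ℝ) else 0) * M.at1 (pw (M.flB A θ) c) t x -
              (if c = a then (1 : ℝ) else 0) * M.at1 (pw (M.flB A θ) d) t x) =
          Gamc (A t) (θ t) a c a x * M.at1 (pw (M.flB A θ) c) t x -
            (if c = a then ∑ d, Gamc (A t) (θ t) a a d x * M.at1 (pw (M.flB A θ) d) t x
              else 0) := by
        intro c
        simp only [mul_sub, Finset.sum_sub_distrib]
        congr 1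
        · rw [Finset.sum_eq_single a]
          · simp
          · intro b _ hb
            simp [hb]
          · intro h
            exact absurd (Finset.mem_univ a) h
        · split_ifs with h
          · subst h
            exact Finset.sum_congr rfl (fun d _ => by ring)
          · exact Finset.sum_eq_zero (fun d _ => by ring)
      rw [Finset.sum_congr rfl (fun c _ => e1 c), Finset.sum_sub_distrib]
      have e2 : ∑ c, (if c = a then ∑ d, Gamc (A t) (θ t) a a d x *
          M.at1 (pw (M.flB A θ) d) t x else 0) =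
          ∑ d, Gamc (A t) (θ t) a a d x * M.at1 (pw (M.flB A θ) d) t x := by
        simp
      have e3 : ∑ c, Gamc (A t) (θ t) a c a x * M.at1 (pw (M.flB A θ) c) t x =
          - ∑ c, Gamc (A t) (θ t) a a c x * M.at1 (pw (M.flB A θ) c) t x := by
        rw [← Finset.sum_neg_distrib]
        refine Finset.sum_congr rfl (fun c _ => ?_)
        rw [Gamc_anti (A t) (θ t) a c a x]
        ring
      rw [e2, e3]
      ring
    have hH : ∀ a, (M.flB A θ).ev z tt ((M.flB A θ).H a (pw (M.flB A θ) a)) =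
        Fdc (A t) a (M.at1 (pw (M.flB A θ) a) t) x -
          ∑ c, Gamc (A t) (θ t) a a c x * M.at1 (pw (M.flB A θ) c) t x := by
      intro a
      rw [hF a, hG a]
      ring
    rw [Finset.sum_congr rfl (fun a _ => hH a), Finset.sum_sub_distrib]
    ring

end Pool.Agent.Helper47.FLG
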